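import Mathlib
import Pool.Agent.H.MP_1aa2a2_co.C

set_option autoImplicit false

namespace Pool.Agent.Results.MP_1aa2a2_co.Yes
open Pool.Agent.H.MP_1aa2a2_co

/-- The double star: adjacent centres inl none and inr none, with a and b pendant vertices. -/
def doubleStar (a b : ℕ) : SimpleGraph (Option (Fin a) ⊕ Option (Fin b)) :=
  SimpleGraph.fromRel (fun x y => (x = Sum.inl none ∧ y = Sum.inr none) ∨
    (x = Sum.inl none ∧ ∃ i, y = Sum.inl (some i)) ∨ (x = Sum.inr none ∧ ∃ j, y = Sum.inr (some j)))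

lemma inj {V : Type} {A : Finset V} {a : ℕ} (h : a ≤ A.card) :
    ∃ e : Fin a → V, Function.Injective e ∧ ∀ i, e i ∈ A := by
  obtain ⟨Y, hY, hc⟩ := Finset.exists_subset_card_eq h
  refine ⟨fun i => ((Y.equivFinOfCardEq hc).symm i : V), ?_, fun i => hY (Subtype.prop _)⟩
  intro i j hij
  exact (Y.equivFinOfCardEq hc).symm.injective (Subtype.ext hij)

lemma free {V : Type} [DecidableEq V] {G : SimpleGraph V} {a b : ℕ}
    (h : IsEmpty (doubleStar a b ↪g G)) : Free G (a + b) := by
  intro u v huv A B cA cB hA hB hind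
  obtain ⟨e, he, he'⟩ := inj (A := A) (a := a) (by omega)
  obtain ⟨g, hg, hg'⟩ := inj (A := B) (a := b) (by omega)
  have ee : ∀ i j, ¬ G.Adj (e i) (e j) := fun i j =>
    hind _ (Finset.mem_union_left _ (he' i)) _ (Finset.mem_union_left _ (he' j))
  have eg : ∀ i j, ¬ G.Adj (e i) (g j) := fun i j =>
    hind _ (Finset.mem_union_left _ (he' i)) _ (Finset.mem_union_right _ (hg' j))
  have ge : ∀ i j, ¬ G.Adj (g j) (e i) := fun i j hh => eg i j hh.symm
  have gg : ∀ i j, ¬ G.Adj (g i) (g j) := fun i j =>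
    hind _ (Finset.mem_union_right _ (hg' i)) _ (Finset.mem_union_right _ (hg' j))
  have ue : ∀ i, G.Adj u (e i) := fun i => (hA _ (he' i)).1
  have eu : ∀ i, G.Adj (e i) u := fun i => (ue i).symm
  have ve : ∀ i, ¬ G.Adj v (e i) := fun i => (hA _ (he' i)).2.1
  have ev : ∀ i, ¬ G.Adj (e i) v := fun i hh => ve i hh.symm
  have vg : ∀ i, G.Adj v (g i) := fun i => (hB _ (hg' i)).1
  have gv : ∀ i, G.Adj (g i) v := fun i => (vg i).symm
  have ug : ∀ i, ¬ G.Adj u (g i) := fun i => (hB _ (hg' i)).2.1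
  have gu : ∀ i, ¬ G.Adj (g i) u := fun i hh => ug i hh.symm
  have hvu := huv.symm
  have n1 : ∀ i, e i ≠ v := fun i => (hA _ (he' i)).2.2
  have n2 : ∀ i, g i ≠ u := fun i => (hB _ (hg' i)).2.2
  have n3 : ∀ i j, e i ≠ g j := fun i j hh => ug j (hh ▸ ue i)
  refine h.false ⟨⟨Sum.elim (fun o => o.elim u e) (fun o => o.elim v g), ?_⟩, ?_⟩
  · rintro ((_ | i) | (_ | i)) ((_ | j) | (_ | j)) hh <;>
      simp only [Sum.elim_inl, Sum.elim_inr, Option.elim_none, Option.elim_some] at hh
    · rfl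
    · exact absurd hh (ue j).ne
    · exact absurd hh huv.ne
    · exact absurd hh.symm (n2 j)
    · exact absurd hh (eu i).ne
    · rw [he hh]
    · exact absurd hh (n1 i)
    · exact absurd hh (n3 i j)
    · exact absurd hh hvu.ne
    · exact absurd hh.symm (n1 j)
    · rfl
    · exact absurd hh (vg j).ne
    · exact absurd hh (n2 i)
    · exact absurd hh.symm (n3 j i)
    · exact absurd hh (gv i).ne
    · rw [hg hh]
  · rintro ((_ | i) | (_ | i)) ((_ | j) | (_ | j)) <;>
      simp [doubleStar, SimpleGraph.fromRel_adj, ee, eg, ge, gg, ue, eu, ve, ev, vg, gv, ug, gu,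
        huv, hvu]

theorem result (a b : ℕ) :
    ∃ f : ℕ → ℝ, Monotone f ∧ (∀ n, 0 < f n) ∧ Filter.Tendsto f Filter.atTop Filter.atTop ∧
      ∀ (V : Type) [Fintype V] [Nonempty V] (G : SimpleGraph V) [DecidableRel G.Adj],
        IsEmpty (doubleStar a b ↪g G) →
        ∃ k : ℕ, f G.minDegree ≤ k ∧
          ∃ c : V → Fin k, ∀ (i : Fin k) (v : V), ∃ u, c u = i ∧ (u = v ∨ G.Adj u v) := by
  classical
  let g : ℕ → ℕ := fun n => Nat.findGreatest (fun t => bound (a + b) t ≤ n) n
  have gm : Monotone g := fun m n hmn =>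
    Nat.findGreatest_mono (fun t (ht : bound (a + b) t ≤ m) => ht.trans hmn) hmn
  refine ⟨fun n => ((max 1 (g n) : ℕ) : ℝ), ?_, ?_, ?_, ?_⟩
  · intro m n hmn
    exact Nat.cast_le.2 (max_le_max le_rfl (gm hmn))
  · intro n
    exact Nat.cast_pos.2 (lt_of_lt_of_le Nat.one_pos (le_max_left _ _))
  · refine tendsto_natCast_atTop_atTop.comp (Filter.tendsto_atTop_atTop.2 ?_)
    intro t
    refine ⟨max t (bound (a + b) t), fun n hn => le_trans ?_ (le_max_right _ _)⟩
    exact Nat.le_findGreatest ((le_max_left _ _).trans hn) ((le_max_right _ _).trans hn)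
  · intro V _ _ G _ hG
    refine ⟨max 1 (g G.minDegree), le_rfl, ?_⟩
    by_cases h0 : g G.minDegree = 0
    · rw [h0]
      exact ⟨fun _ => (0 : Fin 1), fun i v => ⟨v, Subsingleton.elim (α := Fin 1) _ _, Or.inl rfl⟩⟩
    · have h1 : max 1 (g G.minDegree) = g G.minDegree := max_eq_right (by omega)
      rw [h1]
      have h2 : bound (a + b) (g G.minDegree) ≤ G.minDegree :=
        Nat.findGreatest_of_ne_zero (P := fun t => bound (a + b) t ≤ G.minDegree) rfl h0
      obtain ⟨D, hD, hD2⟩ := main (G := G) (t := g G.minDegree) (free hG) (by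
        intro v
        refine h2.trans ((G.minDegree_le_degree v).trans (le_of_eq ?_))
        rw [← SimpleGraph.card_neighborFinset_eq_degree]
        congr 1
        ext x
        simp [nb])
      refine ⟨fun v => if h : ∃ i, D i v then h.choose else ⟨0, by omega⟩, ?_⟩
      intro i v
      obtain ⟨u, hu, hvu⟩ := hD2 i v
      refine ⟨u, ?_, Or.inr hvu.symm⟩
      have hh : ∃ i, D i u := ⟨i, hu⟩
      simp only [dif_pos hh]
      exact hD _ _ u hh.choose_spec hu

end Pool.Agent.Results.MP_1aa2a2_co.Yes
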